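import Mathlib

/-!
Intersectional configurations of every class in every dimension at least four whose unions are not
unions of few convex sets.  A point `x` is read as the monic quartic polynomial `P x` given by its
first four coordinates.
-/

set_option autoImplicit false

namespace Pool.Agent.Work.MP_ddc6c3_co

open Set

variable {e : ℕ}

/-- The value at `t` of the monic polynomial of degree four whose lower coefficients are the first
four coordinates of `x`. -/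
noncomputable def P (x : EuclideanSpace ℝ (Fin (e + 4))) (t : ℝ) : ℝ :=
  x ⟨0, by omega⟩ + x ⟨1, by omega⟩ * t + x ⟨2, by omega⟩ * t ^ 2 + x ⟨3, by omega⟩ * t ^ 3 + t ^ 4

lemma P_affine (x y : EuclideanSpace ℝ (Fin (e + 4))) (a b t : ℝ) (h : a + b = 1) :
    P (a • x + b • y) t = a * P x t + b * P y t := by
  simp only [P, PiLp.add_apply, PiLp.smul_apply, smul_eq_mul]
  have hb : b = 1 - a := by linarith
  subst hb
  ring

lemma P_continuous (t : ℝ) : Continuous fun x : EuclideanSpace ℝ (Fin (e + 4)) => P x t := by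
  unfold P
  fun_prop

/-- The point with first coordinates `a` and all other coordinates `h`. -/
noncomputable def pnt (a : Fin 4 → ℝ) (h : ℝ) : EuclideanSpace ℝ (Fin (e + 4)) :=
  WithLp.toLp 2 fun k => if hk : k.val < 4 then a ⟨k.val, hk⟩ else h

lemma P_pnt (a0 a1 a2 a3 h t : ℝ) : P (e := e) (pnt ![a0, a1, a2, a3] h) t =
    a0 + a1 * t + a2 * t ^ 2 + a3 * t ^ 3 + t ^ 4 := by
  simp [P, pnt]

lemma pnt_big (a : Fin 4 → ℝ) (h : ℝ) (k : Fin (e + 4)) (hk : 4 ≤ k.val) :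
    pnt (e := e) a h k = h := by
  simp [pnt, not_lt.2 hk]

/-- The big bound. -/
noncomputable def M (L r : ℕ) : ℝ := L * (L ^ 4 + (L ^ 2 + r + 1) * L ^ 2 + 1) + 1

/-- The set of the configuration with index `(i, s)`. -/
def KK (e L r : ℕ) (p : Fin L × Fin (r + 1)) : Set (EuclideanSpace ℝ (Fin (e + 4))) :=
  {x | (∀ j : Fin L, j ≠ p.1 → 0 ≤ P x (j : ℕ)) ∧ -((L : ℝ) ^ 2 + (p.2 : ℕ)) ≤ P x (p.1 : ℕ) ∧
    ∑ j : Fin L, P x (j : ℕ) ≤ M L r ∧ ∀ k : Fin (e + 4), 4 ≤ k.val → 0 ≤ x k ∧ x k ≤ 1}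

/-- The common intersection. -/
def K0 (e L r : ℕ) : Set (EuclideanSpace ℝ (Fin (e + 4))) :=
  {x | (∀ j : Fin L, 0 ≤ P x (j : ℕ)) ∧ ∑ j : Fin L, P x (j : ℕ) ≤ M L r ∧
    ∀ k : Fin (e + 4), 4 ≤ k.val → 0 ≤ x k ∧ x k ≤ 1}

variable {L r : ℕ}

lemma sum_continuous :
    Continuous fun x : EuclideanSpace ℝ (Fin (e + 4)) => ∑ j : Fin L, P x (j : ℕ) :=
  continuous_finsetSum _ fun _ _ => P_continuous _

lemma coord_continuous (k : Fin (e + 4)) :
    Continuous fun x : EuclideanSpace ℝ (Fin (e + 4)) => x k := by fun_prop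

lemma KK_closed (p : Fin L × Fin (r + 1)) : IsClosed (KK e L r p) := by
  have h : KK e L r p = (⋂ j : Fin L, ⋂ _ : j ≠ p.1, {x | 0 ≤ P x (j : ℕ)}) ∩
      ({x | -((L : ℝ) ^ 2 + (p.2 : ℕ)) ≤ P x (p.1 : ℕ)} ∩
      ({x | ∑ j : Fin L, P x (j : ℕ) ≤ M L r} ∩
        ⋂ k : Fin (e + 4), ⋂ _ : 4 ≤ k.val, ({x | 0 ≤ x k} ∩ {x | x k ≤ 1}))) := by
    ext x
    simp [KK]
  rw [h]
  refine (isClosed_iInter fun j => isClosed_iInter fun _ =>
      isClosed_le continuous_const (P_continuous _)).inter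
    ((isClosed_le continuous_const (P_continuous _)).inter
    ((isClosed_le sum_continuous continuous_const).inter ?_))
  exact isClosed_iInter fun k => isClosed_iInter fun _ =>
    (isClosed_le continuous_const (coord_continuous k)).inter
      (isClosed_le (coord_continuous k) continuous_const)

lemma K0_closed : IsClosed (K0 e L r) := by
  have h : K0 e L r = (⋂ j : Fin L, {x | 0 ≤ P x (j : ℕ)}) ∩
      ({x | ∑ j : Fin L, P x (j : ℕ) ≤ M L r} ∩
        ⋂ k : Fin (e + 4), ⋂ _ : 4 ≤ k.val, ({x | 0 ≤ x k} ∩ {x | x k ≤ 1})) := by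
    ext x
    simp [K0]
  rw [h]
  refine (isClosed_iInter fun j => isClosed_le continuous_const (P_continuous _)).inter
    ((isClosed_le sum_continuous continuous_const).inter ?_)
  exact isClosed_iInter fun k => isClosed_iInter fun _ =>
    (isClosed_le continuous_const (coord_continuous k)).inter
      (isClosed_le (coord_continuous k) continuous_const)

lemma sum_affine (x y : EuclideanSpace ℝ (Fin (e + 4))) (a b : ℝ) (h : a + b = 1) :
    ∑ j : Fin L, P (a • x + b • y) (j : ℕ) =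
      a * ∑ j : Fin L, P x (j : ℕ) + b * ∑ j : Fin L, P y (j : ℕ) := by
  rw [Finset.mul_sum, Finset.mul_sum, ← Finset.sum_add_distrib]
  exact Finset.sum_congr rfl fun j _ => P_affine x y a b _ h

lemma conv_le {a b u v c : ℝ} (ha : 0 ≤ a) (hb : 0 ≤ b) (hab : a + b = 1) (hu : u ≤ c)
    (hv : v ≤ c) : a * u + b * v ≤ c := by
  have h1 := mul_le_mul_of_nonneg_left hu ha
  have h2 := mul_le_mul_of_nonneg_left hv hb
  have h3 : a * c + b * c = c := by rw [← add_mul, hab, one_mul]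
  linarith

lemma le_conv {a b u v c : ℝ} (ha : 0 ≤ a) (hb : 0 ≤ b) (hab : a + b = 1) (hu : c ≤ u)
    (hv : c ≤ v) : c ≤ a * u + b * v := by
  have h1 := mul_le_mul_of_nonneg_left hu ha
  have h2 := mul_le_mul_of_nonneg_left hv hb
  have h3 : a * c + b * c = c := by rw [← add_mul, hab, one_mul]
  linarith

lemma KK_convex (p : Fin L × Fin (r + 1)) : Convex ℝ (KK e L r p) := by
  intro x hx y hy a b ha hb hab
  refine ⟨fun j hj => ?_, ?_, ?_, fun k hk => ?_⟩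
  · rw [P_affine x y a b _ hab]
    exact le_conv ha hb hab (hx.1 j hj) (hy.1 j hj)
  · rw [P_affine x y a b _ hab]
    exact le_conv ha hb hab hx.2.1 hy.2.1
  · rw [sum_affine x y a b hab]
    exact conv_le ha hb hab hx.2.2.1 hy.2.2.1
  · simp only [PiLp.add_apply, PiLp.smul_apply, smul_eq_mul]
    exact ⟨le_conv ha hb hab (hx.2.2.2 k hk).1 (hy.2.2.2 k hk).1,
      conv_le ha hb hab (hx.2.2.2 k hk).2 (hy.2.2.2 k hk).2⟩

lemma inter_two {p q : Fin L × Fin (r + 1)} (hpq : p.1 ≠ q.1) :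
    KK e L r p ∩ KK e L r q ⊆ K0 e L r := by
  rintro x ⟨h1, h2⟩
  refine ⟨fun l => ?_, h1.2.2⟩
  by_cases h : l = p.1
  · exact h2.1 l (by rw [h]; exact hpq)
  · exact h1.1 l h

lemma K0_sub (p : Fin L × Fin (r + 1)) : K0 e L r ⊆ KK e L r p := by
  intro x hx
  refine ⟨fun l _ => hx.1 l, le_trans ?_ (hx.1 p.1), hx.2⟩
  have : (0 : ℝ) ≤ (L : ℝ) ^ 2 + (p.2 : ℕ) := by positivity
  linarith

lemma iInter_eq (hL : 2 ≤ L) : (⋂ β, KK e L r β) = K0 e L r := by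
  apply Subset.antisymm
  · intro x hx
    rw [mem_iInter] at hx
    exact inter_two (p := (⟨0, by omega⟩, 0)) (q := (⟨1, by omega⟩, 0))
      (by simp) ⟨hx _, hx _⟩
  · exact subset_iInter fun p => K0_sub p

/-- The witness point beyond facet `i` and on facet `j`. -/
noncomputable def pt (i j : ℝ) : EuclideanSpace ℝ (Fin (e + 4)) :=
  pnt ![j ^ 2 * (i ^ 2 - 1 / 2), -(2 * j * (i ^ 2 - 1 / 2) + 2 * i * j ^ 2),
    i ^ 2 - 1 / 2 + 4 * i * j + j ^ 2, -(2 * (i + j))] 0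

lemma P_pt (i j t : ℝ) : P (e := e) (pt i j) t = (t - j) ^ 2 * ((t - i) ^ 2 - 1 / 2) := by
  rw [pt, P_pnt]
  ring

lemma sq_ge_one {a b : ℕ} (h : a ≠ b) : 1 ≤ ((a : ℝ) - b) ^ 2 := by
  have h1 : (1 : ℤ) ≤ ((a : ℤ) - b) ^ 2 := by
    have h2 : (a : ℤ) - b ≠ 0 := by
      intro h3
      apply h
      omega
    have h4 : 0 < ((a : ℤ) - b) ^ 2 := by positivity
    omega
  exact_mod_cast h1

lemma sq_le (a b : Fin L) : (((a : ℕ) : ℝ) - (b : ℕ)) ^ 2 ≤ (L : ℝ) ^ 2 := by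
  have ha : ((a : ℕ) : ℝ) ≤ L := by exact_mod_cast a.isLt.le
  have hb : ((b : ℕ) : ℝ) ≤ L := by exact_mod_cast b.isLt.le
  have ha0 : (0 : ℝ) ≤ ((a : ℕ) : ℝ) := by positivity
  have hb0 : (0 : ℝ) ≤ ((b : ℕ) : ℝ) := by positivity
  exact sq_le_sq' (by linarith) (by linarith)

lemma sum_le_M {f : Fin L → ℝ} {c : ℝ} (hf : ∀ l, f l ≤ c)
    (hc : c ≤ (L : ℝ) ^ 4 + ((L : ℝ) ^ 2 + r + 1) * (L : ℝ) ^ 2 + 1) :
    ∑ l, f l < M L r := by
  have h1 : ∑ l, f l ≤ ∑ _l : Fin L, c := Finset.sum_le_sum fun l _ => hf l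
  have h2 : ∑ _l : Fin L, c = L * c := by
    rw [Finset.sum_const, Finset.card_univ, Fintype.card_fin, nsmul_eq_mul]
  have h3 : (L : ℝ) * c ≤ L * ((L : ℝ) ^ 4 + ((L : ℝ) ^ 2 + r + 1) * (L : ℝ) ^ 2 + 1) :=
    mul_le_mul_of_nonneg_left hc (Nat.cast_nonneg L)
  unfold M
  linarith

lemma pt_mem (i j : Fin L) (s : Fin (r + 1)) : pt (i : ℕ) (j : ℕ) ∈ KK e L r (i, s) := by
  refine ⟨fun l hl => ?_, ?_, ?_, fun k hk => ?_⟩
  · rw [P_pt]
    have h1 : 1 ≤ (((l : ℕ) : ℝ) - (i : ℕ)) ^ 2 :=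
      sq_ge_one (fun h => hl (Fin.ext h))
    have h2 : 0 ≤ (((l : ℕ) : ℝ) - (j : ℕ)) ^ 2 := by positivity
    apply mul_nonneg h2
    linarith
  · rw [P_pt]
    have h1 := sq_le i j
    have h2 : (0 : ℝ) ≤ (s : ℕ) := by positivity
    simp only [sub_self]
    nlinarith
  · refine (sum_le_M (c := (L : ℝ) ^ 4) (fun l => ?_) ?_).le
    · rw [P_pt]
      have h1 := sq_le l i
      have h2 := sq_le l j
      have h3 : 0 ≤ (((l : ℕ) : ℝ) - (j : ℕ)) ^ 2 := by positivity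
      calc (((l : ℕ) : ℝ) - (j : ℕ)) ^ 2 * ((((l : ℕ) : ℝ) - (i : ℕ)) ^ 2 - 1 / 2)
          ≤ (((l : ℕ) : ℝ) - (j : ℕ)) ^ 2 * (L : ℝ) ^ 2 :=
            mul_le_mul_of_nonneg_left (by linarith) h3
        _ ≤ (L : ℝ) ^ 2 * (L : ℝ) ^ 2 := mul_le_mul_of_nonneg_right h2 (by positivity)
        _ = (L : ℝ) ^ 4 := by ring
    · have : (0 : ℝ) ≤ ((L : ℝ) ^ 2 + r + 1) * (L : ℝ) ^ 2 := by positivity
      linarith
  · rw [pt, pnt_big _ _ _ hk]
    norm_num

lemma pt_beyond {i j : Fin L} (hij : i ≠ j) : P (e := e) (pt (i : ℕ) (j : ℕ)) (i : ℕ) < 0 := by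
  rw [P_pt]
  have h1 : 1 ≤ (((i : ℕ) : ℝ) - (j : ℕ)) ^ 2 := sq_ge_one (fun h => hij (Fin.ext h))
  nlinarith

lemma pt_on (i j : Fin L) : P (e := e) (pt (i : ℕ) (j : ℕ)) (j : ℕ) = 0 := by
  rw [P_pt]
  ring

lemma exists_other (hL : 2 ≤ L) (i : Fin L) : ∃ j : Fin L, i ≠ j := by
  by_cases h0 : i.val = 0
  · exact ⟨⟨1, by omega⟩, fun h => by simp [h] at h0⟩
  · exact ⟨⟨0, by omega⟩, fun h => h0 (by simp [h])⟩

lemma pt_notMem_K0 {i j : Fin L} (hij : i ≠ j) : pt (i : ℕ) (j : ℕ) ∉ K0 e L r := by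
  intro h
  have h2 := h.1 i
  have h3 := pt_beyond (e := e) hij
  linarith

lemma K0_ssub (hL : 2 ≤ L) (p : Fin L × Fin (r + 1)) : K0 e L r ⊂ KK e L r p := by
  refine ⟨K0_sub p, fun h => ?_⟩
  obtain ⟨j, hj⟩ := exists_other hL p.1
  exact pt_notMem_K0 hj (h (pt_mem p.1 j p.2))

/-- The point whose polynomial is `(t - i)^4 + c (t - i)^2 - c`. -/
noncomputable def qt (i c : ℝ) : EuclideanSpace ℝ (Fin (e + 4)) :=
  pnt ![i ^ 4 + c * i ^ 2 - c, -(4 * i ^ 3) - 2 * c * i, 6 * i ^ 2 + c, -(4 * i)] 0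

lemma P_qt (i c t : ℝ) : P (e := e) (qt i c) t = (t - i) ^ 4 + c * (t - i) ^ 2 - c := by
  rw [qt, P_pnt]
  ring

lemma qt_mem (i : Fin L) (s : Fin (r + 1)) :
    qt (i : ℕ) ((L : ℝ) ^ 2 + (s : ℕ)) ∈ KK e L r (i, s) := by
  have hc : (0 : ℝ) ≤ (L : ℝ) ^ 2 + (s : ℕ) := by positivity
  refine ⟨fun l hl => ?_, ?_, ?_, fun k hk => ?_⟩
  · rw [P_qt]
    have h1 : 1 ≤ (((l : ℕ) : ℝ) - (i : ℕ)) ^ 2 :=
      sq_ge_one (fun h => hl (Fin.ext h))
    have h2 : 0 ≤ (((l : ℕ) : ℝ) - (i : ℕ)) ^ 4 := by positivity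
    have h3 := mul_le_mul_of_nonneg_left h1 hc
    linarith
  · rw [P_qt]
    simp
  · refine (sum_le_M (c := (L : ℝ) ^ 4 + ((L : ℝ) ^ 2 + r + 1) * (L : ℝ) ^ 2) (fun l => ?_) ?_).le
    · rw [P_qt]
      have h1 := sq_le l i
      have h2 : 0 ≤ (((l : ℕ) : ℝ) - (i : ℕ)) ^ 2 := by positivity
      have h3 : (((l : ℕ) : ℝ) - (i : ℕ)) ^ 4 ≤ (L : ℝ) ^ 4 := by
        have := mul_le_mul h1 h1 h2 (by positivity)
        calc (((l : ℕ) : ℝ) - (i : ℕ)) ^ 4 = (((l : ℕ) : ℝ) - (i : ℕ)) ^ 2 *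
              (((l : ℕ) : ℝ) - (i : ℕ)) ^ 2 := by ring
          _ ≤ (L : ℝ) ^ 2 * (L : ℝ) ^ 2 := this
          _ = (L : ℝ) ^ 4 := by ring
      have hs : ((s : ℕ) : ℝ) ≤ r + 1 := by exact_mod_cast s.isLt.le
      have h4 : ((L : ℝ) ^ 2 + (s : ℕ)) * (((l : ℕ) : ℝ) - (i : ℕ)) ^ 2 ≤
          ((L : ℝ) ^ 2 + r + 1) * (L : ℝ) ^ 2 :=
        mul_le_mul (by linarith) h1 h2 (by positivity)
      linarith
    · linarith
  · rw [qt, pnt_big _ _ _ hk]
    norm_num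

lemma KK_injective (hL : 2 ≤ L) : Function.Injective (KK e L r) := by
  rintro ⟨i, s⟩ ⟨i', s'⟩ h
  have h1 : i = i' := by
    by_contra hne
    obtain ⟨j, hj⟩ := exists_other hL i
    have h2 : pt (i : ℕ) (j : ℕ) ∈ KK e L r (i', s') := h ▸ pt_mem i j s
    have h3 := h2.1 i hne
    have h4 := pt_beyond (e := e) hj
    linarith
  subst h1
  have key : ∀ s s' : Fin (r + 1), KK e L r (i, s) = KK e L r (i, s') → s.val ≤ s'.val := by
    intro s s' h
    have h2 : qt (i : ℕ) ((L : ℝ) ^ 2 + (s : ℕ)) ∈ KK e L r (i, s') := h ▸ qt_mem i s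
    have h3 := h2.2.1
    rw [P_qt] at h3
    simp only [sub_self] at h3
    have h4 : ((s : ℕ) : ℝ) ≤ (s' : ℕ) := by linarith
    exact_mod_cast h4
  have h5 : s = s' := Fin.ext (le_antisymm (key s s' h) (key s' s h.symm))
  rw [h5]

lemma K0_bound (hL : 4 ≤ L) {x : EuclideanSpace ℝ (Fin (e + 4))} (hx : x ∈ K0 e L r)
    (k : Fin (e + 4)) : x k ∈ Icc (-(1000 * (M L r + 100))) (1000 * (M L r + 100)) := by
  have hM : 0 ≤ M L r := by unfold M; positivity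
  by_cases hk : 4 ≤ k.val
  · obtain ⟨h1, h2⟩ := hx.2.2 k hk
    constructor <;> linarith
  have hle : ∀ l : Fin L, P x (l : ℕ) ≤ M L r := fun l =>
    (Finset.single_le_sum (f := fun j : Fin L => P x (j : ℕ)) (fun j _ => hx.1 j)
      (Finset.mem_univ l)).trans hx.2.1
  have hP : ∀ t : ℝ, P x t = x ⟨0, by omega⟩ + x ⟨1, by omega⟩ * t + x ⟨2, by omega⟩ * t ^ 2 +
    x ⟨3, by omega⟩ * t ^ 3 + t ^ 4 := fun t => rfl
  have hm : ∀ l : ℕ, l < 4 → 0 ≤ P x (l : ℝ) ∧ P x (l : ℝ) ≤ M L r := fun l hl =>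
    ⟨hx.1 ⟨l, by omega⟩, hle ⟨l, by omega⟩⟩
  have h0 := hm 0 (by norm_num)
  have h1 := hm 1 (by norm_num)
  have h2 := hm 2 (by norm_num)
  have h3 := hm 3 (by norm_num)
  obtain ⟨y0, hy0⟩ : ∃ y, y = x ⟨0, by omega⟩ := ⟨_, rfl⟩
  obtain ⟨y1, hy1⟩ : ∃ y, y = x ⟨1, by omega⟩ := ⟨_, rfl⟩
  obtain ⟨y2, hy2⟩ : ∃ y, y = x ⟨2, by omega⟩ := ⟨_, rfl⟩
  obtain ⟨y3, hy3⟩ : ∃ y, y = x ⟨3, by omega⟩ := ⟨_, rfl⟩
  rw [hP, ← hy0, ← hy1, ← hy2, ← hy3] at h0 h1 h2 h3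
  push_cast at h0 h1 h2 h3
  obtain ⟨a0, b0⟩ := h0
  obtain ⟨a1, b1⟩ := h1
  obtain ⟨a2, b2⟩ := h2
  obtain ⟨a3, b3⟩ := h3
  have hk' : k.val = 0 ∨ k.val = 1 ∨ k.val = 2 ∨ k.val = 3 := by omega
  rcases hk' with h | h | h | h
  · have hk0 : k = ⟨0, by omega⟩ := Fin.ext h
    rw [hk0, ← hy0]
    constructor <;> linarith
  · have hk0 : k = ⟨1, by omega⟩ := Fin.ext h
    rw [hk0, ← hy1]
    constructor <;> linarith
  · have hk0 : k = ⟨2, by omega⟩ := Fin.ext h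
    rw [hk0, ← hy2]
    constructor <;> linarith
  · have hk0 : k = ⟨3, by omega⟩ := Fin.ext h
    rw [hk0, ← hy3]
    constructor <;> linarith

lemma K0_compact (hL : 4 ≤ L) : IsCompact (K0 e L r) := by
  have h : IsCompact ((EuclideanSpace.equiv (Fin (e + 4)) ℝ) ⁻¹'
      (Set.pi univ fun _ => Icc (-(1000 * (M L r + 100))) (1000 * (M L r + 100)))) :=
    (EuclideanSpace.equiv (Fin (e + 4)) ℝ).toHomeomorph.isCompact_preimage.mpr
      (isCompact_univ_pi fun _ => isCompact_Icc)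
  exact h.of_isClosed_subset K0_closed fun x hx k _ => K0_bound hL hx k

lemma K0_interior : (interior (K0 e L r)).Nonempty := by
  have hopen : IsOpen ((⋂ j : Fin L, {x : EuclideanSpace ℝ (Fin (e + 4)) | 0 < P x (j : ℕ)}) ∩
      ({x | ∑ j : Fin L, P x (j : ℕ) < M L r} ∩
        ⋂ k : Fin (e + 4), ⋂ _ : 4 ≤ k.val, ({x | 0 < x k} ∩ {x | x k < 1}))) := by
    refine (isOpen_iInter_of_finite fun j => isOpen_lt continuous_const (P_continuous _)).inter
      ((isOpen_lt sum_continuous continuous_const).inter ?_)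
    refine isOpen_iInter_of_finite fun k => ?_
    by_cases hk : 4 ≤ k.val
    · simp only [hk, iInter_true]
      exact (isOpen_lt continuous_const (coord_continuous k)).inter
        (isOpen_lt (coord_continuous k) continuous_const)
    · simp only [hk, iInter_of_empty]
      exact isOpen_univ
  have hx0 : ∀ t : ℝ, P (e := e) (pnt ![1, 0, 0, 0] (1 / 2)) t = 1 + t ^ 4 := by
    intro t
    rw [P_pnt]
    ring
  refine ⟨pnt ![1, 0, 0, 0] (1 / 2), interior_maximal ?_ hopen ?_⟩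
  · rintro x ⟨h1, h2, h3⟩
    rw [mem_iInter] at h1
    refine ⟨fun j => (h1 j).le, le_of_lt h2, fun k hk => ?_⟩
    simp only [mem_iInter] at h3
    exact ⟨(h3 k hk).1.le, (h3 k hk).2.le⟩
  · refine ⟨mem_iInter.mpr fun j => ?_, ?_, ?_⟩
    · change 0 < P (pnt ![1, 0, 0, 0] (1 / 2)) (j : ℕ)
      rw [hx0]
      positivity
    · change ∑ j : Fin L, P (pnt ![1, 0, 0, 0] (1 / 2)) (j : ℕ) < M L r
      refine sum_le_M (c := (L : ℝ) ^ 4 + 1) (fun l => ?_) ?_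
      · rw [hx0]
        have hl : ((l : ℕ) : ℝ) ≤ L := by exact_mod_cast l.isLt.le
        have := pow_le_pow_left₀ (by positivity : (0 : ℝ) ≤ ((l : ℕ) : ℝ)) hl 4
        linarith
      · have : (0 : ℝ) ≤ ((L : ℝ) ^ 2 + r + 1) * (L : ℝ) ^ 2 := by positivity
        linarith
    · simp only [mem_iInter]
      intro k hk
      constructor
      · show 0 < pnt ![1, 0, 0, 0] (1 / 2) k
        rw [pnt_big _ _ _ hk]
        norm_num
      · show pnt ![1, 0, 0, 0] (1 / 2) k < 1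
        rw [pnt_big _ _ _ hk]
        norm_num

lemma K0_convex (hL : 2 ≤ L) : Convex ℝ (K0 e L r) := by
  rw [← iInter_eq hL]
  exact convex_iInter KK_convex

/-- A point beyond two facets is not in the union. -/
lemma not_mem_union {z : EuclideanSpace ℝ (Fin (e + 4))} {i j : Fin L} (hij : i ≠ j)
    (hi : P z (i : ℕ) < 0) (hj : P z (j : ℕ) < 0) : z ∉ ⋃ l, KK e L r l := by
  rw [mem_iUnion]
  rintro ⟨l, hl⟩
  have h1 : i = l.1 := by
    by_contra h
    have := hl.1 i h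
    linarith
  have h2 : j = l.1 := by
    by_contra h
    have := hl.1 j h
    linarith
  exact hij (h1.trans h2.symm)

/-- A convex subset of the union that has a point beyond facet `i` and on hyperplane `j` has no
point beyond facet `j`. -/
lemma key {C : Set (EuclideanSpace ℝ (Fin (e + 4)))} (hC : Convex ℝ C)
    (hsub : C ⊆ ⋃ l, KK e L r l)
    {i j : Fin L} (hij : i ≠ j) {x y : EuclideanSpace ℝ (Fin (e + 4))} (hx : x ∈ C) (hy : y ∈ C)
    (hxi : P x (i : ℕ) < 0) (hxj : P x (j : ℕ) = 0) : 0 ≤ P y (j : ℕ) := by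
  by_contra hneg
  push Not at hneg
  obtain ⟨δ, hδ0, hδ1, hδ⟩ : ∃ δ : ℝ, 0 < δ ∧ δ ≤ 1 ∧
      (1 - δ) * P x (i : ℕ) + δ * P y (i : ℕ) < 0 := by
    have hc : Filter.Tendsto (fun δ : ℝ => (1 - δ) * P x (i : ℕ) + δ * P y (i : ℕ))
        (nhdsWithin 0 (Ioi 0)) (nhds ((1 - 0) * P x (i : ℕ) + 0 * P y (i : ℕ))) := by
      apply Filter.Tendsto.mono_left _ nhdsWithin_le_nhds
      apply Continuous.tendsto
      fun_prop
    have h1 : ∀ᶠ δ in nhdsWithin (0 : ℝ) (Ioi 0),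
        (1 - δ) * P x (i : ℕ) + δ * P y (i : ℕ) < 0 :=
      hc.eventually_lt_const (by simpa using hxi)
    have h2 : ∀ᶠ δ in nhdsWithin (0 : ℝ) (Ioi 0), δ ∈ Ioo (0 : ℝ) 1 :=
      Ioo_mem_nhdsGT one_pos
    obtain ⟨δ, hd1, hd2⟩ := (h1.and h2).exists
    exact ⟨δ, hd2.1, hd2.2.le, hd1⟩
  have hz : (1 - δ) • x + δ • y ∈ C := hC hx hy (by linarith) hδ0.le (by ring)
  refine not_mem_union hij ?_ ?_ (hsub hz)
  · rw [P_affine x y _ _ _ (by ring)]
    exact hδ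
  · rw [P_affine x y _ _ _ (by ring), hxj]
    nlinarith

/-- Any `r + 2` members have the intersection `K0`. -/
lemma inter_many (S : Finset (Fin L × Fin (r + 1))) (hS : S.card = r + 2) :
    (⋂ α ∈ S, KK e L r α) = K0 e L r := by
  classical
  have hne : ∃ p ∈ S, ∃ q ∈ S, p.1 ≠ q.1 := by
    by_contra h
    push Not at h
    have h1 : S.card ≤ (Finset.univ : Finset (Fin (r + 1))).card := by
      refine Finset.card_le_card_of_injOn Prod.snd (fun _ _ => Finset.mem_coe.2 (Finset.mem_univ _))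
        ?_
      intro p hp q hq hpq
      exact Prod.ext (h p hp q hq) hpq
    rw [hS, Finset.card_univ, Fintype.card_fin] at h1
    omega
  obtain ⟨p, hp, q, hq, hpq⟩ := hne
  apply Subset.antisymm
  · intro x hx
    simp only [mem_iInter] at hx
    exact inter_two hpq ⟨hx p hp, hx q hq⟩
  · intro x hx
    simp only [mem_iInter]
    exact fun p _ => K0_sub p hx

/-- Fewer members need not have this intersection. -/
lemma inter_few (hL : 2 ≤ L) {m : ℕ} (hm : m ≤ r + 1) :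
    ∃ S : Finset (Fin L × Fin (r + 1)), S.card = m ∧ (⋂ α ∈ S, KK e L r α) ≠ K0 e L r := by
  classical
  obtain ⟨j, hj⟩ := exists_other hL (⟨0, by omega⟩ : Fin L)
  obtain ⟨T, _, hT⟩ := Finset.exists_subset_card_eq
    (s := (Finset.univ : Finset (Fin (r + 1)))) (n := m) (by simpa using hm)
  refine ⟨T.map ⟨fun s => ((⟨0, by omega⟩ : Fin L), s), fun a b h => by simpa using h⟩, ?_, ?_⟩
  · rw [Finset.card_map, hT]
  · intro h
    apply pt_notMem_K0 (e := e) (r := r) hj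
    rw [← h]
    simp only [mem_iInter, Finset.mem_map]
    rintro p ⟨s, _, rfl⟩
    exact pt_mem _ _ _

/-- The union is not a union of few convex sets. -/
lemma no_cover {N : ℕ} (hN : 2 ^ N < L) (C : Fin N → Set (EuclideanSpace ℝ (Fin (e + 4))))
    (hC : ∀ a, Convex ℝ (C a)) : (⋃ a, C a) ≠ ⋃ α, KK e L r α := by
  classical
  intro hU
  let B : Fin L → Finset (Fin N) := fun i =>
    Finset.univ.filter fun a => ∃ y ∈ C a, P y (i : ℕ) < 0
  obtain ⟨i, j, hij, hB⟩ := Fintype.exists_ne_map_eq_of_card_lt B (by simpa using hN)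
  have hx : pt (i : ℕ) (j : ℕ) ∈ ⋃ a, C a := by
    rw [hU]
    exact mem_iUnion.mpr ⟨(i, 0), pt_mem i j 0⟩
  obtain ⟨a, ha⟩ := mem_iUnion.mp hx
  have h1 : a ∈ B i := by
    simp only [B, Finset.mem_filter, Finset.mem_univ, true_and]
    exact ⟨_, ha, pt_beyond hij⟩
  rw [hB] at h1
  simp only [B, Finset.mem_filter, Finset.mem_univ, true_and] at h1
  obtain ⟨y, hy, hyj⟩ := h1
  have hsub : C a ⊆ ⋃ l, KK e L r l := by
    rw [← hU]
    exact subset_iUnion C a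
  have := key (hC a) hsub hij ha hy (pt_beyond hij) (pt_on i j)
  linarith

end Pool.Agent.Work.MP_ddc6c3_co
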